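import Mathlib

namespace H680_BP

open Finset

variable {r : ℕ}

/-- The total weight `a_i` of the colour sets which contain the colour `i`. -/
noncomputable def deg (a : Finset (Fin r) → ℝ) (i : Fin r) : ℝ :=
  ∑ R : Finset (Fin r), if i ∈ R then a R else 0

/-- `(a, b)` is a feasible pair on `r` colours. -/
structure Feasible (a b : Finset (Fin r) → ℝ) : Prop where
  a_mem : ∀ R, 0 ≤ a R ∧ a R ≤ 1
  b_mem : ∀ R, 0 ≤ b R ∧ b R ≤ 1
  a_sum : ∑ R, a R = 1
  b_sum : ∑ R, b R = 1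
  cross : ∀ R₁ R₂ : Finset (Fin r), R₁ ∩ R₂ = ∅ → a R₁ = 0 ∨ b R₂ = 0

/-- `m(a, b)`, the largest value of `a_i + b_i`. -/
noncomputable def m (a b : Finset (Fin r) → ℝ) : ℝ := ⨆ i : Fin r, (deg a i + deg b i)

/-- `(a, b)` is an optimal solution of the colouring problem on `r` colours. -/
def Optimal (a b : Finset (Fin r) → ℝ) : Prop :=
  Feasible a b ∧ ∀ a' b' : Finset (Fin r) → ℝ, Feasible a' b' → m a b ≤ m a' b'

/-- No set of the support of `a` meets a set of the support of `b` in two or more colours. -/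
def NoOverlap (a b : Finset (Fin r) → ℝ) : Prop :=
  ¬ ∃ R₁ R₂ : Finset (Fin r), 2 ≤ (R₁ ∩ R₂).card ∧ 0 < a R₁ ∧ 0 < b R₂

lemma sum_deg_mul (a : Finset (Fin r) → ℝ) (f : Fin r → ℝ) :
    ∑ i, deg a i * f i = ∑ R, a R * ∑ i ∈ R, f i := by
  unfold deg
  simp_rw [Finset.sum_mul]
  rw [Finset.sum_comm]
  refine Finset.sum_congr rfl fun R _ => ?_
  rw [Finset.mul_sum]
  have : ∀ i, (if i ∈ R then a R else 0) * f i = if i ∈ R then a R * f i else 0 := by
    intro i; split_ifs <;> simp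
  simp_rw [this]
  rw [← Finset.sum_filter]
  congr 1
  ext i
  simp

lemma sum_deg_on (b : Finset (Fin r) → ℝ) (R : Finset (Fin r)) :
    ∑ i ∈ R, deg b i = ∑ R', b R' * ((R ∩ R').card : ℝ) := by
  unfold deg
  rw [Finset.sum_comm]
  refine Finset.sum_congr rfl fun R' _ => ?_
  rw [← Finset.sum_filter, Finset.sum_const, nsmul_eq_mul, mul_comm]
  congr 2

lemma deg_nonneg {a : Finset (Fin r) → ℝ} (ha : ∀ R, 0 ≤ a R) (i : Fin r) : 0 ≤ deg a i := by
  unfold deg
  refine Finset.sum_nonneg fun R _ => ?_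
  split_ifs
  · exact ha R
  · exact le_rfl

lemma deg_le_one {a : Finset (Fin r) → ℝ} (ha : ∀ R, 0 ≤ a R) (hs : ∑ R, a R = 1) (i : Fin r) :
    deg a i ≤ 1 := by
  unfold deg
  rw [← hs]
  refine Finset.sum_le_sum fun R _ => ?_
  split_ifs
  · exact le_rfl
  · exact ha R

lemma Feasible.symm {a b : Finset (Fin r) → ℝ} (h : Feasible a b) : Feasible b a :=
  ⟨h.b_mem, h.a_mem, h.b_sum, h.a_sum, fun R₁ R₂ hd => (h.cross R₂ R₁ (by rwa [inter_comm])).symm⟩

lemma m_symm (a b : Finset (Fin r) → ℝ) : m a b = m b a := by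
  unfold m
  simp_rw [add_comm]

lemma Optimal.symm {a b : Finset (Fin r) → ℝ} (h : Optimal a b) : Optimal b a := by
  refine ⟨h.1.symm, fun a' b' h' => ?_⟩
  rw [m_symm]
  exact h.2 a' b' h'

lemma NoOverlap.symm {a b : Finset (Fin r) → ℝ} (h : NoOverlap a b) : NoOverlap b a := by
  rintro ⟨R₁, R₂, h1, h2, h3⟩
  exact h ⟨R₂, R₁, by rwa [inter_comm], h3, h2⟩

lemma one_le_inter {a b : Finset (Fin r) → ℝ} (h : Feasible a b) {R₁ R₂ : Finset (Fin r)}
    (h1 : 0 < a R₁) (h2 : 0 < b R₂) : (1 : ℝ) ≤ ((R₁ ∩ R₂).card : ℝ) := by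
  have : (R₁ ∩ R₂).Nonempty := by
    rw [Finset.nonempty_iff_ne_empty]
    intro he
    rcases h.cross R₁ R₂ he with h3 | h3 <;> linarith
  exact_mod_cast this.card_pos

lemma one_le_beta {a b : Finset (Fin r) → ℝ} (h : Feasible a b) {R : Finset (Fin r)}
    (hR : 0 < a R) : 1 ≤ ∑ i ∈ R, deg b i := by
  rw [sum_deg_on, ← h.b_sum]
  refine Finset.sum_le_sum fun R' _ => ?_
  rcases (h.b_mem R').1.eq_or_lt with h0 | h0
  · rw [← h0]; simp
  · have := one_le_inter h hR h0
    nlinarith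

/-- The main counting argument. -/
lemma core {a b : Finset (Fin r) → ℝ} (h : Feasible a b) (F : ℝ → ℝ) (γ c c' ω : ℝ) (hω : 0 < ω)
    (H1 : ∀ i, deg a i * F (deg b i) + deg b i * γ ≤ 1)
    (H2 : ∀ R, 0 < a R → c + ω * (∑ i ∈ R, deg b i - 1) ≤ ∑ i ∈ R, F (deg b i))
    (H3 : ∀ R, 0 < b R → c' ≤ γ * R.card)
    (H4 : (r : ℝ) ≤ c + c') : NoOverlap a b := by
  have e1 : ∑ i : Fin r, (deg a i * F (deg b i) + deg b i * γ) ≤ r := by
    calc ∑ i : Fin r, (deg a i * F (deg b i) + deg b i * γ) ≤ ∑ i : Fin r, (1 : ℝ) :=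
          Finset.sum_le_sum fun i _ => H1 i
      _ = r := by simp
  rw [Finset.sum_add_distrib, sum_deg_mul a (fun i => F (deg b i)), sum_deg_mul b (fun _ => γ)] at e1
  have e2 : ∑ R, a R * (c + ω * (∑ i ∈ R, deg b i - 1)) ≤ ∑ R, a R * ∑ i ∈ R, F (deg b i) := by
    refine Finset.sum_le_sum fun R _ => ?_
    rcases (h.a_mem R).1.eq_or_lt with h0 | h0
    · rw [← h0]; simp
    · exact mul_le_mul_of_nonneg_left (H2 R h0) h0.le
  have e3 : ∑ R, b R * c' ≤ ∑ R, b R * ∑ i ∈ R, γ := by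
    refine Finset.sum_le_sum fun R _ => ?_
    rcases (h.b_mem R).1.eq_or_lt with h0 | h0
    · rw [← h0]; simp
    · refine mul_le_mul_of_nonneg_left ?_ h0.le
      rw [Finset.sum_const, nsmul_eq_mul, mul_comm]
      exact H3 R h0
  rw [← Finset.sum_mul, h.b_sum, one_mul] at e3
  have e4 : ∑ R, a R * (c + ω * (∑ i ∈ R, deg b i - 1)) =
      c + ω * ∑ R, a R * (∑ i ∈ R, deg b i - 1) := by
    simp_rw [mul_add]
    rw [Finset.sum_add_distrib, ← Finset.sum_mul, h.a_sum, one_mul, Finset.mul_sum]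
    congr 1
    refine Finset.sum_congr rfl fun R _ => ?_
    ring
  have hpos : ∀ R, 0 ≤ a R * (∑ i ∈ R, deg b i - 1) := by
    intro R
    rcases (h.a_mem R).1.eq_or_lt with h0 | h0
    · rw [← h0]; simp
    · exact mul_nonneg h0.le (by linarith [one_le_beta h h0])
  have e5 : ∑ R, a R * (∑ i ∈ R, deg b i - 1) ≤ 0 := by
    have : ω * ∑ R, a R * (∑ i ∈ R, deg b i - 1) ≤ 0 := by linarith
    by_contra hc
    push Not at hc
    have := mul_pos hω hc
    linarith
  rintro ⟨R₁, R₂, h1, h2, h3⟩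
  have e6 : a R₁ * (∑ i ∈ R₁, deg b i - 1) ≤ 0 :=
    (Finset.single_le_sum (fun R _ => hpos R) (mem_univ R₁)).trans e5
  have e7 : ∑ i ∈ R₁, deg b i - 1 ≤ 0 := by
    by_contra hc
    push Not at hc
    have := mul_pos h2 hc
    linarith
  rw [sum_deg_on] at e7
  have e8 : ∑ R', b R' * (((R₁ ∩ R').card : ℝ) - 1) ≤ 0 := by
    simp_rw [mul_sub, mul_one]
    rw [Finset.sum_sub_distrib, h.b_sum]
    exact e7
  have hpos2 : ∀ R', 0 ≤ b R' * (((R₁ ∩ R').card : ℝ) - 1) := by
    intro R'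
    rcases (h.b_mem R').1.eq_or_lt with h0 | h0
    · rw [← h0]; simp
    · exact mul_nonneg h0.le (by linarith [one_le_inter h h2 h0])
  have e9 : b R₂ * (((R₁ ∩ R₂).card : ℝ) - 1) ≤ 0 :=
    (Finset.single_le_sum (fun R _ => hpos2 R) (mem_univ R₂)).trans e8
  have e10 : (2 : ℝ) ≤ ((R₁ ∩ R₂).card : ℝ) := by exact_mod_cast h1
  nlinarith

/-- The case of squares. -/
lemma square_case {a b : Finset (Fin r) → ℝ} (t : ℕ) (ht : 1 ≤ t) (hr : r = t * t)
    (h : Feasible a b) (hm : ∀ i, deg a i + deg b i ≤ 2 / t) : NoOverlap a b := by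
  have htR : (1 : ℝ) ≤ t := by exact_mod_cast ht
  have ht0 : (0 : ℝ) < t := by linarith
  refine core h (fun z => (t : ℝ) ^ 2 * z) 0 ((t : ℝ) ^ 2) 0 ((t : ℝ) ^ 2) (by positivity) ?_ ?_ ?_ ?_
  · intro i
    have h1 := hm i
    have h2 := deg_nonneg (fun R => (h.a_mem R).1) i
    have h3 := deg_nonneg (fun R => (h.b_mem R).1) i
    rw [le_div_iff₀ ht0] at h1
    simp only [mul_zero, add_zero]
    have h4 : 0 ≤ deg a i * t := by positivity
    have h5 : 0 ≤ deg b i * t := by positivity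
    nlinarith [sq_nonneg (deg a i * t - deg b i * t)]
  · intro R _
    rw [← Finset.mul_sum]
    apply le_of_eq; ring
  · intro R _
    simp
  · rw [hr]; push_cast; linarith [sq (t : ℝ)]

lemma color_ineq {T x A B : ℝ} (hT : 1 ≤ T) (hx : 0 < x)
    (hy : 1 ≤ (x + 1 / (T * (T + 1))) * (T + 1)) (ha0 : 0 ≤ A) (hb0 : 0 ≤ B) (ha1 : A ≤ 1)
    (h1 : A + B ≤ x + 1 / T) :
    A * max (T * (T + 1) * B - (1 / T - B) / x)
      (T * (T + 1) * B - (B - 1 / (T + 1)) / (x + 1 / (T * (T + 1)))) +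
      B * (T - T * (T + 1) * x) ≤ 1 := by
  have ht0 : (0 : ℝ) < T := by linarith
  have hT1 : 0 < T + 1 := by linarith
  have hTT : 0 < T * (T + 1) := by positivity
  have hq : 1 / T = 1 / (T + 1) + 1 / (T * (T + 1)) := by field_simp
  obtain ⟨y, hydef⟩ : ∃ y, y = x + 1 / (T * (T + 1)) := ⟨_, rfl⟩
  rw [← hydef] at hy ⊢
  have hy0 : 0 < y := by rw [hydef]; positivity
  have hx' : T * (T + 1) * x = T * (T + 1) * y - 1 := by
    rw [hydef]; field_simp; ring
  have hyi : 1 / y < T * (T + 1) := by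
    rw [div_lt_iff₀ hy0]
    have := mul_pos hTT hx
    linarith
  have hg : x + 1 / T = y + 1 / (T + 1) := by rw [hydef, hq]; ring
  have k1 : A * (T * (T + 1) * B - (1 / T - B) / x) + B * (T - T * (T + 1) * x) ≤ 1 := by
    obtain ⟨S, hS⟩ : ∃ S, S = A * (T * (T + 1) + 1 / x) + (T - T * (T + 1) * x) := ⟨_, rfl⟩
    have hP : A * (T * (T + 1) * B - (1 / T - B) / x) + B * (T - T * (T + 1) * x) =
        B * S - A * (1 / (T * x)) := by
      rw [hS]; field_simp; ring
    rw [hP]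
    rcases le_total 0 S with hS0 | hS0
    · have h2 : B * S ≤ (x + 1 / T - A) * S := mul_le_mul_of_nonneg_right (by linarith) hS0
      have e : (x + 1 / T - A) * S - A * (1 / (T * x)) =
          1 - (A - x) ^ 2 * (1 / x + T * (T + 1)) := by
        rw [hS]; field_simp; ring
      have : 0 ≤ (A - x) ^ 2 * (1 / x + T * (T + 1)) := by positivity
      linarith
    · have : B * S ≤ 0 := mul_nonpos_of_nonneg_of_nonpos hb0 hS0
      have : 0 ≤ A * (1 / (T * x)) := by positivity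
      linarith
  have k2 : A * (T * (T + 1) * B - (B - 1 / (T + 1)) / y) + B * (T - T * (T + 1) * x) ≤ 1 := by
    obtain ⟨S, hS⟩ : ∃ S, S = A * (T * (T + 1) - 1 / y) + (T - T * (T + 1) * x) := ⟨_, rfl⟩
    have hP : A * (T * (T + 1) * B - (B - 1 / (T + 1)) / y) + B * (T - T * (T + 1) * x) =
        B * S + A / (y * (T + 1)) := by
      rw [hS]; field_simp; ring
    rw [hP]
    rcases le_total 0 S with hS0 | hS0
    · have h2 : B * S ≤ (y + 1 / (T + 1) - A) * S :=
        mul_le_mul_of_nonneg_right (by linarith) hS0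
      have e : (y + 1 / (T + 1) - A) * S + A / (y * (T + 1)) =
          1 - (A - y) ^ 2 * (T * (T + 1) - 1 / y) := by
        rw [hS, hx']; field_simp; ring
      have : 0 ≤ (A - y) ^ 2 * (T * (T + 1) - 1 / y) := mul_nonneg (sq_nonneg _) (by linarith)
      linarith
    · have h2 : B * S ≤ 0 := mul_nonpos_of_nonneg_of_nonpos hb0 hS0
      have : A / (y * (T + 1)) ≤ 1 := by
        rw [div_le_one (by positivity)]; linarith
      linarith
  rcases max_choice (T * (T + 1) * B - (1 / T - B) / x)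
    (T * (T + 1) * B - (B - 1 / (T + 1)) / y) with hc | hc
  · rw [hc]; exact k1
  · rw [hc]; exact k2

/-- The main case. -/
lemma range_case {a b : Finset (Fin r) → ℝ} (t : ℕ) (ht : 1 ≤ t) (x : ℝ) (hx : 0 < x)
    (hy : 1 ≤ (x + 1 / ((t : ℝ) * (t + 1))) * (t + 1)) (h : Feasible a b)
    (hm : ∀ i, deg a i + deg b i ≤ x + 1 / t)
    (H3 : ∀ R, 0 < b R → (r : ℝ) - t * (t + 1) ≤ (t - t * (t + 1) * x) * R.card) :
    NoOverlap a b := by
  have htR : (1 : ℝ) ≤ t := by exact_mod_cast ht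
  have ht0 : (0 : ℝ) < t := by linarith
  have hT1 : 0 < (t : ℝ) + 1 := by linarith
  have hTT : 0 < (t : ℝ) * (t + 1) := by positivity
  have hy0 : 0 < x + 1 / ((t : ℝ) * (t + 1)) := by positivity
  have hx' : (t : ℝ) * (t + 1) * (x + 1 / ((t : ℝ) * (t + 1))) = t * (t + 1) * x + 1 := by
    field_simp
  have hyi : 1 / (x + 1 / ((t : ℝ) * (t + 1))) < t * (t + 1) := by
    rw [div_lt_iff₀ hy0, hx']
    have := mul_pos hTT hx
    linarith
  refine core h (fun z => max ((t : ℝ) * (t + 1) * z - (1 / t - z) / x)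
      ((t : ℝ) * (t + 1) * z - (z - 1 / (t + 1)) / (x + 1 / (t * (t + 1)))))
    (t - t * (t + 1) * x) (t * (t + 1)) ((r : ℝ) - t * (t + 1))
    (t * (t + 1) - 1 / (x + 1 / ((t : ℝ) * (t + 1)))) (by linarith) ?_ ?_ H3 (by linarith)
  · intro i
    exact color_ineq htR hx hy (deg_nonneg (fun R => (h.a_mem R).1) i)
      (deg_nonneg (fun R => (h.b_mem R).1) i) (deg_le_one (fun R => (h.a_mem R).1) h.a_sum i) (hm i)
  · intro R hR
    have hβ := one_le_beta h hR
    obtain ⟨y, hydef⟩ : ∃ y : ℝ, y = x + 1 / ((t : ℝ) * (t + 1)) := ⟨_, rfl⟩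
    rw [← hydef] at hyi hy0 ⊢
    have hy2 : 0 ≤ 1 / y := by positivity
    have hx2 : 0 ≤ 1 / x := by positivity
    rcases Nat.lt_or_ge t R.card with hk | hk
    · have hk' : (t : ℝ) + 1 ≤ (R.card : ℝ) := by exact_mod_cast hk
      refine le_trans ?_ (Finset.sum_le_sum fun i _ => le_max_right _ _)
      rw [Finset.sum_sub_distrib, ← Finset.mul_sum, ← Finset.sum_div, Finset.sum_sub_distrib,
          Finset.sum_const, nsmul_eq_mul]
      obtain ⟨β, hβd⟩ : ∃ β, β = ∑ i ∈ R, deg b i := ⟨_, rfl⟩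
      rw [← hβd] at hβ ⊢
      have h1 : 1 ≤ (R.card : ℝ) * (1 / (t + 1)) := by
        rw [mul_one_div, le_div_iff₀ hT1]; linarith
      have h2 : (β - R.card * (1 / (t + 1))) / y ≤ (β - 1) / y :=
        div_le_div_of_nonneg_right (by linarith) hy0.le
      have h3 : (β - 1) / y = 1 / y * (β - 1) := by ring
      rw [h3] at h2
      linarith
    · have hk' : (R.card : ℝ) ≤ t := by exact_mod_cast hk
      refine le_trans ?_ (Finset.sum_le_sum fun i _ => le_max_left _ _)
      rw [Finset.sum_sub_distrib, ← Finset.mul_sum, ← Finset.sum_div, Finset.sum_sub_distrib,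
          Finset.sum_const, nsmul_eq_mul]
      obtain ⟨β, hβd⟩ : ∃ β, β = ∑ i ∈ R, deg b i := ⟨_, rfl⟩
      rw [← hβd] at hβ ⊢
      have h1 : (R.card : ℝ) * (1 / t) ≤ 1 := by
        rw [mul_one_div, div_le_one ht0]; exact hk'
      have h2 : (R.card * (1 / t) - β) / x ≤ (1 - β) / x :=
        div_le_div_of_nonneg_right (by linarith) hx.le
      have h3 : (1 - β) / x = - (1 / x * (β - 1)) := by ring
      rw [h3] at h2
      have h4 : 0 ≤ 1 / x * (β - 1) := mul_nonneg hx2 (by linarith)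
      have h5 : 0 ≤ 1 / y * (β - 1) := mul_nonneg hy2 (by linarith)
      linarith

/-- The pair obtained by giving the set `A j` the weight `w j`. -/
noncomputable def push {ι : Type} [Fintype ι] (A : ι → Finset (Fin r)) (w : ι → ℝ) :
    Finset (Fin r) → ℝ := fun R => ∑ j, if A j = R then w j else 0

lemma push_nonneg {ι : Type} [Fintype ι] (A : ι → Finset (Fin r)) (w : ι → ℝ)
    (hw : ∀ j, 0 ≤ w j) (R : Finset (Fin r)) : 0 ≤ push A w R := by
  unfold push
  refine Finset.sum_nonneg fun j _ => ?_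
  split_ifs
  · exact hw j
  · exact le_rfl

lemma push_sum {ι : Type} [Fintype ι] (A : ι → Finset (Fin r)) (w : ι → ℝ) :
    ∑ R, push A w R = ∑ j, w j := by
  unfold push
  rw [Finset.sum_comm]
  simp

lemma push_deg {ι : Type} [Fintype ι] (A : ι → Finset (Fin r)) (w : ι → ℝ) (i : Fin r) :
    deg (push A w) i = ∑ j, if i ∈ A j then w j else 0 := by
  unfold deg push
  rw [← Finset.sum_filter, Finset.sum_comm]
  refine Finset.sum_congr rfl fun j _ => ?_
  rw [Finset.sum_ite_eq]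
  simp

lemma push_feasible {ι ι' : Type} [Fintype ι] [Fintype ι'] (A : ι → Finset (Fin r))
    (B : ι' → Finset (Fin r)) (w : ι → ℝ) (v : ι' → ℝ) (hw : ∀ j, 0 ≤ w j) (hv : ∀ j, 0 ≤ v j)
    (hws : ∑ j, w j = 1) (hvs : ∑ j, v j = 1) (hAB : ∀ j k, (A j ∩ B k).Nonempty) :
    Feasible (push A w) (push B v) := by
  have h1 := push_nonneg A w hw
  have h2 := push_nonneg B v hv
  have s1 : ∑ R, push A w R = 1 := (push_sum A w).trans hws
  have s2 : ∑ R, push B v R = 1 := (push_sum B v).trans hvs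
  refine ⟨fun R => ⟨h1 R, ?_⟩, fun R => ⟨h2 R, ?_⟩, s1, s2, ?_⟩
  · rw [← s1]; exact Finset.single_le_sum (fun R _ => h1 R) (mem_univ R)
  · rw [← s2]; exact Finset.single_le_sum (fun R _ => h2 R) (mem_univ R)
  · intro R₁ R₂ hd
    by_contra hc
    push Not at hc
    obtain ⟨j, _, hj⟩ := Finset.exists_ne_zero_of_sum_ne_zero hc.1
    obtain ⟨k, _, hk⟩ := Finset.exists_ne_zero_of_sum_ne_zero hc.2
    have hj' : A j = R₁ := by
      by_contra hne; rw [if_neg hne] at hj; exact hj rfl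
    have hk' : B k = R₂ := by
      by_contra hne; rw [if_neg hne] at hk; exact hk rfl
    have := hAB j k
    rw [hj', hk', hd] at this
    exact Finset.not_nonempty_empty this

/-- the row of a colour in the grid-like solution -/
def row (n t c : ℕ) : ℕ := if c < n * t then c / t else c - n * t

/-- the position of a colour in its row -/
def pos (n t c : ℕ) : ℕ := if c < n * t then c % t else t

lemma construct (n t σ : ℕ) (_hn : 1 ≤ n) (ht : 1 ≤ t) (hσ : σ ≤ n) (hr : r = n * t + σ)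
    (x : ℝ) (hx : 0 ≤ x) (hx1 : n * x + σ * (1 / ((t : ℝ) * (t + 1))) = 1) :
    ∃ a b : Finset (Fin r) → ℝ, Feasible a b ∧ ∀ i, deg a i + deg b i = x + 1 / t := by
  have htR : (1 : ℝ) ≤ t := by exact_mod_cast ht
  have ht0 : (0 : ℝ) < t := by linarith
  have hT1 : 0 < (t : ℝ) + 1 := by linarith
  have hrow : ∀ c : Fin r, row n t c < n := by
    intro c
    unfold row
    split_ifs with h
    · rw [Nat.div_lt_iff_lt_mul (by omega)]; exact h
    · have := c.2; omega
  have hpos : ∀ c : Fin r, pos n t c < t + 1 := by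
    intro c
    unfold pos
    split_ifs with h
    · have := Nat.mod_lt (c : ℕ) (show 0 < t by omega); omega
    · omega
  have hpos2 : ∀ c : Fin r, ¬ row n t c < σ → pos n t c < t := by
    intro c hc
    unfold row at hc
    unfold pos
    split_ifs at hc ⊢ with h
    · exact Nat.mod_lt _ (by omega)
    · exfalso; have := c.2; omega
  let A : Fin n → Finset (Fin r) := fun j => univ.filter fun c => row n t c = j
  let B : Fin t × Fin (t + 1) → Finset (Fin r) := fun p => univ.filter fun c =>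
    (row n t c < σ ∧ pos n t c = p.2) ∨ (¬ row n t c < σ ∧ pos n t c = p.1)
  let w : Fin n → ℝ := fun j => if (j : ℕ) < σ then x + 1 / ((t : ℝ) * (t + 1)) else x
  let v : Fin t × Fin (t + 1) → ℝ := fun _ => 1 / ((t : ℝ) * (t + 1))
  have hex : ∀ (j : Fin n) (p : ℕ), (p < t ∨ (p = t ∧ (j : ℕ) < σ)) →
      ∃ c : Fin r, row n t c = j ∧ pos n t c = p := by
    intro j p hp
    rcases hp with hp | ⟨hp, hj⟩
    · have hlt : (j : ℕ) * t + p < n * t := by
        have := j.2
        calc (j : ℕ) * t + p < j * t + t := by omega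
          _ = (j + 1) * t := by ring
          _ ≤ n * t := Nat.mul_le_mul_right t this
      refine ⟨⟨j * t + p, by omega⟩, ?_, ?_⟩
      · unfold row
        simp only
        rw [if_pos hlt, mul_comm, Nat.mul_add_div (by omega), Nat.div_eq_of_lt hp, add_zero]
      · unfold pos
        simp only
        rw [if_pos hlt, mul_comm, Nat.mul_add_mod, Nat.mod_eq_of_lt hp]
    · refine ⟨⟨n * t + j, by omega⟩, ?_, ?_⟩
      · unfold row
        simp only
        rw [if_neg (by omega)]; omega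
      · unfold pos
        simp only
        rw [if_neg (by omega), hp]
  refine ⟨push A w, push B v, push_feasible A B w v ?_ ?_ ?_ ?_ ?_, ?_⟩
  · intro j
    simp only [w]
    split_ifs <;> positivity
  · intro j
    simp only [v]
    positivity
  · simp only [w]
    have : ∀ j : Fin n, (if (j : ℕ) < σ then x + 1 / ((t : ℝ) * (t + 1)) else x) =
        x + if (j : ℕ) < σ then 1 / ((t : ℝ) * (t + 1)) else 0 := by
      intro j; split_ifs <;> ring
    simp_rw [this]
    rw [Finset.sum_add_distrib, Finset.sum_const, Finset.card_univ, Fintype.card_fin, nsmul_eq_mul,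
      Fin.sum_univ_eq_sum_range (fun j => if j < σ then 1 / ((t : ℝ) * (t + 1)) else 0) n,
      ← Finset.sum_filter, Finset.sum_const, nsmul_eq_mul]
    have : (Finset.range n).filter (fun j => j < σ) = Finset.range σ := by
      ext j; simp only [Finset.mem_filter, Finset.mem_range]; omega
    rw [this, Finset.card_range]
    exact hx1
  · simp only [v]
    rw [Finset.sum_const, Finset.card_univ, Fintype.card_prod, Fintype.card_fin, Fintype.card_fin,
      nsmul_eq_mul]
    push_cast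
    field_simp
  · intro j p
    by_cases hj : (j : ℕ) < σ
    · obtain ⟨c, h1, h2⟩ := hex j p.2 (by have := p.2.2; omega)
      refine ⟨c, ?_⟩
      rw [Finset.mem_inter]
      constructor
      · simp only [A, Finset.mem_filter, Finset.mem_univ, true_and]; exact h1
      · simp only [B, Finset.mem_filter, Finset.mem_univ, true_and]
        left; exact ⟨by rw [h1]; exact hj, h2⟩
    · obtain ⟨c, h1, h2⟩ := hex j p.1 (Or.inl p.1.2)
      refine ⟨c, ?_⟩
      rw [Finset.mem_inter]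
      constructor
      · simp only [A, Finset.mem_filter, Finset.mem_univ, true_and]; exact h1
      · simp only [B, Finset.mem_filter, Finset.mem_univ, true_and]
        right; exact ⟨by rw [h1]; exact hj, h2⟩
  · intro c
    rw [push_deg, push_deg]
    have e1 : (∑ j : Fin n, if c ∈ A j then w j else 0) = w ⟨row n t c, hrow c⟩ := by
      rw [Finset.sum_eq_single (⟨row n t c, hrow c⟩ : Fin n)]
      · rw [if_pos]; simp [A]
      · intro j _ hj
        rw [if_neg]
        simp only [A, Finset.mem_filter, Finset.mem_univ, true_and]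
        intro h
        apply hj
        ext
        exact h.symm
      · intro h; exact absurd (Finset.mem_univ _) h
    rw [e1]
    by_cases hc : row n t c < σ
    · have e2 : (∑ p : Fin t × Fin (t + 1), if c ∈ B p then v p else 0) = 1 / ((t : ℝ) + 1) := by
        rw [Fintype.sum_prod_type]
        have : ∀ p : Fin t, (∑ q : Fin (t + 1), if c ∈ B (p, q) then v (p, q) else 0) =
            1 / ((t : ℝ) * (t + 1)) := by
          intro p
          rw [Finset.sum_eq_single (⟨pos n t c, hpos c⟩ : Fin (t + 1))]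
          · rw [if_pos]
            simp only [B, Finset.mem_filter, Finset.mem_univ, true_and]
            left; exact ⟨hc, trivial⟩
          · intro q _ hq
            rw [if_neg]
            simp only [B, Finset.mem_filter, Finset.mem_univ, true_and]
            rintro (⟨_, h⟩ | ⟨h, _⟩)
            · apply hq; ext; exact h.symm
            · exact h hc
          · intro h; exact absurd (Finset.mem_univ _) h
        simp_rw [this]
        rw [Finset.sum_const, Finset.card_univ, Fintype.card_fin, nsmul_eq_mul]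
        field_simp
      rw [e2]
      simp only [w]
      rw [if_pos hc]
      field_simp
      ring
    · have e2 : (∑ p : Fin t × Fin (t + 1), if c ∈ B p then v p else 0) = 1 / (t : ℝ) := by
        rw [Fintype.sum_prod_type_right]
        have : ∀ q : Fin (t + 1), (∑ p : Fin t, if c ∈ B (p, q) then v (p, q) else 0) =
            1 / ((t : ℝ) * (t + 1)) := by
          intro q
          rw [Finset.sum_eq_single (⟨pos n t c, hpos2 c hc⟩ : Fin t)]
          · rw [if_pos]
            simp only [B, Finset.mem_filter, Finset.mem_univ, true_and]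
            right; exact ⟨hc, trivial⟩
          · intro p _ hp
            rw [if_neg]
            simp only [B, Finset.mem_filter, Finset.mem_univ, true_and]
            rintro (⟨h, _⟩ | ⟨_, h⟩)
            · exact hc h
            · apply hp; ext; exact h.symm
          · intro h; exact absurd (Finset.mem_univ _) h
        simp_rw [this]
        rw [Finset.sum_const, Finset.card_univ, Fintype.card_fin, nsmul_eq_mul]
        push_cast
        field_simp
      rw [e2]
      simp only [w]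
      rw [if_neg hc]

lemma le_m (a b : Finset (Fin r) → ℝ) (i : Fin r) : deg a i + deg b i ≤ m a b :=
  le_ciSup (f := fun i : Fin r => deg a i + deg b i) (Set.finite_range _).bddAbove i

lemma optimal_le {a b : Finset (Fin r) → ℝ} (h : Optimal a b) (n t σ : ℕ) (hn : 1 ≤ n)
    (ht : 1 ≤ t) (hσ : σ ≤ n) (hr : r = n * t + σ) (x : ℝ) (hx : 0 ≤ x)
    (hx1 : n * x + σ * (1 / ((t : ℝ) * (t + 1))) = 1) (i : Fin r) :
    deg a i + deg b i ≤ x + 1 / t := by
  obtain ⟨a', b', hf, hd⟩ := construct n t σ hn ht hσ hr x hx hx1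
  have : Nonempty (Fin r) := ⟨i⟩
  refine (le_m a b i).trans ((h.2 a' b' hf).trans ?_)
  unfold m
  simp_rw [hd]
  rw [ciSup_const]

/-- Facts about the parameter `x` in the lower range. -/
lemma x_low (t s : ℕ) (ht : 1 ≤ t) (hs : s ≤ t) (x : ℝ)
    (hxd : x = (1 - s * (1 / ((t : ℝ) * (t + 1)))) / t) :
    0 < x ∧ 1 ≤ (x + 1 / ((t : ℝ) * (t + 1))) * (t + 1) ∧
      (t : ℝ) * x + s * (1 / ((t : ℝ) * (t + 1))) = 1 ∧
      (t : ℝ) - t * (t + 1) * x = ((s : ℝ) - t) / t := by
  have htR : (1 : ℝ) ≤ t := by exact_mod_cast ht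
  have ht0 : (0 : ℝ) < t := by linarith
  have hsR : (s : ℝ) ≤ t := by exact_mod_cast hs
  have hs0 : (0 : ℝ) ≤ s := Nat.cast_nonneg s
  have hx' : x = ((t : ℝ) * (t + 1) - s) / (t * (t * (t + 1))) := by
    rw [hxd]; field_simp
  refine ⟨?_, ?_, ?_, ?_⟩
  · rw [hx']
    apply div_pos _ (by positivity)
    nlinarith
  · have : (x + 1 / ((t : ℝ) * (t + 1))) * (t + 1) = (((t : ℝ) * (t + 1) - s) + t) / (t * t) := by
      rw [hx']; field_simp
    rw [this, le_div_iff₀ (by positivity)]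
    nlinarith
  · rw [hx']; field_simp; ring
  · rw [hx']; field_simp; ring

/-- Facts about the parameter `x` in the upper range. -/
lemma x_high (t s : ℕ) (ht : 1 ≤ t) (hs : s ≤ t) (x : ℝ)
    (hxd : x = (1 - s * (1 / ((t : ℝ) * (t + 1)))) / (t + 1)) :
    0 < x ∧ 1 ≤ (x + 1 / ((t : ℝ) * (t + 1))) * (t + 1) ∧
      ((t + 1 : ℕ) : ℝ) * x + s * (1 / ((t : ℝ) * (t + 1))) = 1 ∧
      (t : ℝ) - t * (t + 1) * x = (s : ℝ) / (t + 1) := by
  have htR : (1 : ℝ) ≤ t := by exact_mod_cast ht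
  have ht0 : (0 : ℝ) < t := by linarith
  have hT1 : 0 < (t : ℝ) + 1 := by linarith
  have hsR : (s : ℝ) ≤ t := by exact_mod_cast hs
  have hs0 : (0 : ℝ) ≤ s := Nat.cast_nonneg s
  have hx' : x = ((t : ℝ) * (t + 1) - s) / ((t + 1) * (t * (t + 1))) := by
    rw [hxd]; field_simp
  refine ⟨?_, ?_, ?_, ?_⟩
  · rw [hx']
    apply div_pos _ (by positivity)
    nlinarith
  · have : (x + 1 / ((t : ℝ) * (t + 1))) * (t + 1) =
        (((t : ℝ) * (t + 1) - s) + (t + 1)) / ((t + 1) * t) := by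
      rw [hx']; field_simp
    rw [this, le_div_iff₀ (by positivity)]
    nlinarith
  · rw [hx']; push_cast; field_simp; ring
  · rw [hx']; field_simp; ring

/-- Lower range, one-sided size hypothesis. -/
lemma low_b {a b : Finset (Fin r) → ℝ} (t : ℕ) (ht : 1 ≤ t) (h1 : t * t ≤ r)
    (h2 : r ≤ t * (t + 1)) (h : Optimal a b)
    (hb : r = t * (t + 1) ∨ ∀ R, 0 < b R → R.card ≤ t) : NoOverlap a b := by
  obtain ⟨s, hs⟩ := Nat.exists_eq_add_of_le h1
  have hst : s ≤ t := by nlinarith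
  have htR : (1 : ℝ) ≤ t := by exact_mod_cast ht
  have ht0 : (0 : ℝ) < t := by linarith
  have hsR : (s : ℝ) ≤ t := by exact_mod_cast hst
  obtain ⟨x, hxd⟩ : ∃ x : ℝ, x = (1 - s * (1 / ((t : ℝ) * (t + 1)))) / t := ⟨_, rfl⟩
  obtain ⟨hx, hy, hx1, hγ⟩ := x_low t s ht hst x hxd
  refine range_case t ht x hx hy h.1 (optimal_le h t t s ht ht hst hs x hx.le hx1) ?_
  intro R hR
  rw [hγ]
  have hr' : (r : ℝ) - t * (t + 1) = s - t := by rw [hs]; push_cast; ring
  rw [hr']
  rcases hb with hb | hb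
  · have : s = t := by
      have : t * t + s = t * t + t := by rw [← hs, hb]; ring
      omega
    rw [this]; simp
  · have hk : (R.card : ℝ) ≤ t := by exact_mod_cast hb R hR
    have : ((s : ℝ) - t) / t * R.card = (s - t) * (R.card / t) := by ring
    rw [this]
    have h3 : (R.card : ℝ) / t ≤ 1 := by rw [div_le_one ht0]; exact hk
    have h4 : 0 ≤ (t : ℝ) - s := by linarith
    nlinarith

/-- Upper range, one-sided size hypothesis. -/
lemma high_b {a b : Finset (Fin r) → ℝ} (t : ℕ) (ht : 1 ≤ t) (h1 : t * (t + 1) ≤ r)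
    (h2 : r < (t + 1) * (t + 1)) (h : Optimal a b)
    (hb : ∀ R, 0 < b R → t + 1 ≤ R.card) : NoOverlap a b := by
  obtain ⟨s, hs⟩ := Nat.exists_eq_add_of_le h1
  have hst : s ≤ t := by
    have : (t + 1) * (t + 1) = t * (t + 1) + (t + 1) := by ring
    omega
  have htR : (1 : ℝ) ≤ t := by exact_mod_cast ht
  have ht0 : (0 : ℝ) < t := by linarith
  have hT1 : 0 < (t : ℝ) + 1 := by linarith
  have hsR : (s : ℝ) ≤ t := by exact_mod_cast hst
  have hs0 : (0 : ℝ) ≤ s := Nat.cast_nonneg s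
  obtain ⟨x, hxd⟩ : ∃ x : ℝ, x = (1 - s * (1 / ((t : ℝ) * (t + 1)))) / (t + 1) := ⟨_, rfl⟩
  obtain ⟨hx, hy, hx1, hγ⟩ := x_high t s ht hst x hxd
  refine range_case t ht x hx hy h.1
    (optimal_le h (t + 1) t s (by omega) ht (by omega) (by rw [hs]; ring) x hx.le hx1) ?_
  intro R hR
  rw [hγ]
  have hr' : (r : ℝ) - t * (t + 1) = s := by rw [hs]; push_cast; ring
  rw [hr']
  have hk : (t : ℝ) + 1 ≤ R.card := by exact_mod_cast hb R hR
  rw [div_mul_eq_mul_div, le_div_iff₀ hT1]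
  exact mul_le_mul_of_nonneg_left hk hs0

lemma square {a b : Finset (Fin r) → ℝ} (t : ℕ) (ht : 1 ≤ t) (hr : r = t * t)
    (h : Optimal a b) : NoOverlap a b := by
  have htR : (1 : ℝ) ≤ t := by exact_mod_cast ht
  have ht0 : (0 : ℝ) < t := by linarith
  refine square_case t ht hr h.1 fun i => ?_
  have := optimal_le h t t 0 ht ht (by omega) (by simpa using hr) (1 / t) (by positivity)
    (by push_cast; field_simp; ring) i
  refine this.trans (le_of_eq (by ring))

/-- The case of three colours. -/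
lemma three {a b : Finset (Fin 3) → ℝ} (h : Optimal a b) : NoOverlap a b := by
  by_cases hb : ∀ R, 0 < b R → 1 + 1 ≤ R.card
  · exact high_b 1 le_rfl (by norm_num) (by norm_num) h hb
  by_cases ha : ∀ R, 0 < a R → 1 + 1 ≤ R.card
  · exact (high_b 1 le_rfl (by norm_num) (by norm_num) h.symm ha).symm
  exfalso
  push Not at ha hb
  obtain ⟨R₂, hR₂, hc₂⟩ := hb
  obtain ⟨R₁, hR₁, hc₁⟩ := ha
  have hne : R₁ ∩ R₂ ≠ ∅ := by
    intro he
    rcases h.1.cross R₁ R₂ he with h3 | h3 <;> linarith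
  obtain ⟨i, hi⟩ := Finset.nonempty_iff_ne_empty.2 hne
  rw [Finset.mem_inter] at hi
  have e1 : R₁ = {i} := by
    refine (Finset.eq_of_subset_of_card_le (Finset.singleton_subset_iff.2 hi.1) ?_).symm
    simp; omega
  have e2 : R₂ = {i} := by
    refine (Finset.eq_of_subset_of_card_le (Finset.singleton_subset_iff.2 hi.2) ?_).symm
    simp; omega
  have d1 : 1 ≤ deg b i := by
    have := one_le_beta h.1 hR₁
    rw [e1, Finset.sum_singleton] at this
    exact this
  have d2 : 1 ≤ deg a i := by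
    have := one_le_beta h.1.symm hR₂
    rw [e2, Finset.sum_singleton] at this
    exact this
  have := optimal_le h 1 1 0 le_rfl le_rfl (by omega)
  have h5 := optimal_le h 2 1 1 (by norm_num) le_rfl (by norm_num) (by norm_num) (1 / 4)
    (by norm_num) (by norm_num) i
  norm_num at h5
  linarith

/-- The total mass of pairs of sets sharing two or more colours. -/
lemma overlap_mass {a b : Finset (Fin r) → ℝ} (h : Feasible a b) (g : ℝ)
    (hm : ∀ i, deg a i + deg b i ≤ g) :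
    ∑ R₁, ∑ R₂, (if 2 ≤ (R₁ ∩ R₂).card then a R₁ * b R₂ else 0) ≤ r * g ^ 2 / 4 - 1 := by
  have e1 : ∑ i, deg a i * deg b i ≤ r * g ^ 2 / 4 := by
    calc ∑ i, deg a i * deg b i ≤ ∑ i : Fin r, g ^ 2 / 4 := by
          refine Finset.sum_le_sum fun i _ => ?_
          have h1 := hm i
          have h2 := deg_nonneg (fun R => (h.a_mem R).1) i
          have h3 := deg_nonneg (fun R => (h.b_mem R).1) i
          nlinarith [sq_nonneg (deg a i - deg b i), mul_self_le_mul_self (add_nonneg h2 h3) h1]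
      _ = r * g ^ 2 / 4 := by
          rw [Finset.sum_const, Finset.card_univ, Fintype.card_fin, nsmul_eq_mul]; ring
  rw [sum_deg_mul a (deg b)] at e1
  simp_rw [sum_deg_on, Finset.mul_sum] at e1
  have e2 : ∑ R₁, ∑ R₂, (a R₁ * b R₂ + if 2 ≤ (R₁ ∩ R₂).card then a R₁ * b R₂ else 0) ≤
      ∑ R₁, ∑ R₂, a R₁ * (b R₂ * ((R₁ ∩ R₂).card : ℝ)) := by
    refine Finset.sum_le_sum fun R₁ _ => Finset.sum_le_sum fun R₂ _ => ?_
    rcases (h.a_mem R₁).1.eq_or_lt with h0 | h0
    · rw [← h0]; simp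
    rcases (h.b_mem R₂).1.eq_or_lt with h0' | h0'
    · rw [← h0']; simp
    have hp := mul_pos h0 h0'
    have h1 := one_le_inter h h0 h0'
    split_ifs with hc
    · have h2 : (2 : ℝ) ≤ ((R₁ ∩ R₂).card : ℝ) := by exact_mod_cast hc
      nlinarith
    · nlinarith
  have e3 : ∑ R₁, ∑ R₂, (a R₁ * b R₂ + if 2 ≤ (R₁ ∩ R₂).card then a R₁ * b R₂ else 0) =
      1 + ∑ R₁, ∑ R₂, (if 2 ≤ (R₁ ∩ R₂).card then a R₁ * b R₂ else 0) := by
    simp_rw [Finset.sum_add_distrib]
    congr 1
    rw [← Finset.sum_mul_sum, h.a_sum, h.b_sum, one_mul]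
  rw [e3] at e2
  linarith

lemma poly_low (t s : ℝ) (ht : 1 ≤ t) (hs : 0 ≤ s) (hst : s ≤ t) :
    (t * t + s) ^ 2 * (2 * t * (t + 1) - s) ^ 2 ≤ 4 * (t * t + s + 1) * (t ^ 2 * (t + 1)) ^ 2 := by
  obtain ⟨v, hv⟩ : ∃ v, v = t ^ 2 * (t + 1) := ⟨_, rfl⟩
  obtain ⟨e, he⟩ : ∃ e, e = t * (t - s) := ⟨_, rfl⟩
  have hv0 : 0 < v := by rw [hv]; positivity
  have he0 : 0 ≤ e := by rw [he]; exact mul_nonneg (by linarith) (by linarith)
  -- first summand
  have k1 : 4 * (s * e) ≤ v := by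
    rw [he, hv]
    have : 4 * (s * (t - s)) ≤ t ^ 2 := by nlinarith [sq_nonneg (t - 2 * s)]
    nlinarith [mul_le_mul_of_nonneg_left this (by linarith : (0 : ℝ) ≤ t), sq_nonneg t]
  -- second summand
  have k2 : s * (v + e) / t ≤ 3 / 2 * v := by
    rw [div_le_iff₀ (by linarith)]
    have h1 : s * v ≤ t * v := mul_le_mul_of_nonneg_right hst hv0.le
    have h2 : v ≤ v * t := by nlinarith
    nlinarith
  have k3 : 0 ≤ s * (v + e) / t := by positivity
  have k4 : (s * (v + e) / t) ^ 2 ≤ (3 / 2 * v) ^ 2 := pow_le_pow_left₀ k3 k2 2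
  have ht0 : t ≠ 0 := by linarith
  have id1 : (t * t + s) * (2 * t * (t + 1) - s) = 2 * t * v + s * (v + e) / t := by
    rw [hv, he]; field_simp; ring
  rw [← mul_pow, id1, ← hv]
  have id2 : (2 * t * v + s * (v + e) / t) ^ 2 =
      4 * t * t * v ^ 2 + 4 * s * v * (v + e) + (s * (v + e) / t) ^ 2 := by
    field_simp; ring
  rw [id2]
  have k5 : 4 * (s * e) * v ≤ v * v := mul_le_mul_of_nonneg_right k1 hv0.le
  nlinarith [sq_nonneg v]

lemma poly_high (T s : ℝ) (hT : 2 ≤ T) (hs : 0 ≤ s) (hst : s ≤ T) :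
    (T * T - s) ^ 2 * (2 * (T - 1) * T + s) ^ 2 ≤
      4 * (T * T - s + 1) * ((T - 1) * T ^ 2) ^ 2 := by
  obtain ⟨v, hv⟩ : ∃ v, v = (T - 1) * T ^ 2 := ⟨_, rfl⟩
  obtain ⟨e, he⟩ : ∃ e, e = T * (T - s) := ⟨_, rfl⟩
  have hT2 : 0 < T ^ 2 := by positivity
  have hv0 : 0 < v := by rw [hv]; exact mul_pos (by linarith) hT2
  have he0 : 0 ≤ e := by rw [he]; exact mul_nonneg (by linarith) (by linarith)
  have hve : 0 ≤ v - e := by
    rw [hv, he]; nlinarith
  have k1 : 4 * (s * e) ≤ 2 * v := by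
    rw [he, hv]
    have : 4 * (s * (T - s)) ≤ T ^ 2 := by nlinarith [sq_nonneg (T - 2 * s)]
    nlinarith [mul_le_mul_of_nonneg_left this (by linarith : (0 : ℝ) ≤ T), sq_nonneg T]
  have k2 : s * (v - e) / T ≤ v := by
    rw [div_le_iff₀ (by linarith)]
    nlinarith
  have k3 : 0 ≤ s * (v - e) / T := by positivity
  have k4 : (s * (v - e) / T) ^ 2 ≤ v ^ 2 := pow_le_pow_left₀ k3 k2 2
  have ht0 : T ≠ 0 := by linarith
  have id1 : (T * T - s) * (2 * (T - 1) * T + s) = 2 * T * v - s * (v - e) / T := by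
    rw [hv, he]; field_simp; ring
  rw [← mul_pow, id1, ← hv]
  have id2 : (2 * T * v - s * (v - e) / T) ^ 2 =
      4 * T * T * v ^ 2 - 4 * s * v * (v - e) + (s * (v - e) / T) ^ 2 := by
    field_simp; ring
  rw [id2]
  have k5 : 4 * (s * e) * v ≤ 2 * v * v := mul_le_mul_of_nonneg_right k1 hv0.le
  nlinarith [sq_nonneg v]

lemma mass_le {a b : Finset (Fin r) → ℝ} (hr : 1 ≤ r) (h : Optimal a b) :
    ∑ R₁, ∑ R₂, (if 2 ≤ (R₁ ∩ R₂).card then a R₁ * b R₂ else 0) ≤ 1 / r := by
  obtain ⟨t, h1, h2⟩ : ∃ t : ℕ, t * t ≤ r ∧ r < (t + 1) * (t + 1) :=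
    ⟨Nat.sqrt r, Nat.sqrt_le r, Nat.lt_succ_sqrt r⟩
  have ht : 1 ≤ t := by
    rcases Nat.eq_zero_or_pos t with h0 | h0
    · subst h0; omega
    · exact h0
  have htR : (1 : ℝ) ≤ t := by exact_mod_cast ht
  have ht0 : (0 : ℝ) < t := by linarith
  have hT1 : 0 < (t : ℝ) + 1 := by linarith
  have hrR : (1 : ℝ) ≤ r := by exact_mod_cast hr
  have hr0 : (0 : ℝ) < r := by linarith
  suffices H : ∃ g : ℝ, (∀ i, deg a i + deg b i ≤ g) ∧ (r : ℝ) ^ 2 * g ^ 2 ≤ 4 * (r + 1) by
    obtain ⟨g, hg1, hg2⟩ := H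
    refine (overlap_mass h.1 g hg1).trans ?_
    rw [le_div_iff₀ hr0]
    nlinarith
  by_cases hc : r ≤ t * (t + 1)
  · obtain ⟨s, hs⟩ := Nat.exists_eq_add_of_le h1
    have hst : s ≤ t := by nlinarith
    obtain ⟨x, hxd⟩ : ∃ x : ℝ, x = (1 - s * (1 / ((t : ℝ) * (t + 1)))) / t := ⟨_, rfl⟩
    obtain ⟨hx, hy, hx1, hγ⟩ := x_low t s ht hst x hxd
    refine ⟨x + 1 / t, optimal_le h t t s ht ht hst hs x hx.le hx1, ?_⟩
    have hp := poly_low t s htR (Nat.cast_nonneg s) (by exact_mod_cast hst)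
    have e1 : (r : ℝ) = t * t + s := by rw [hs]; push_cast; ring
    have e2 : x + 1 / t = (2 * t * (t + 1) - s) / ((t : ℝ) ^ 2 * (t + 1)) := by
      rw [hxd]; field_simp; ring
    rw [e2, e1, div_pow, mul_div_assoc', div_le_iff₀ (by positivity)]
    exact hp
  · push Not at hc
    obtain ⟨s, hs⟩ := Nat.exists_eq_add_of_le hc.le
    have hst : s ≤ t := by
      have : (t + 1) * (t + 1) = t * (t + 1) + (t + 1) := by ring
      omega
    obtain ⟨x, hxd⟩ : ∃ x : ℝ, x = (1 - s * (1 / ((t : ℝ) * (t + 1)))) / (t + 1) := ⟨_, rfl⟩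
    obtain ⟨hx, hy, hx1, hγ⟩ := x_high t s ht hst x hxd
    refine ⟨x + 1 / t, optimal_le h (t + 1) t s (by omega) ht (by omega) (by rw [hs]; ring) x hx.le
      hx1, ?_⟩
    have hsR : (s : ℝ) ≤ t := by exact_mod_cast hst
    have hp := poly_high (t + 1) (t + 1 - s) (by linarith) (by linarith)
      (by linarith [Nat.cast_nonneg (α := ℝ) s])
    have e1 : (r : ℝ) = ((t : ℝ) + 1) * (t + 1) - (t + 1 - s) := by rw [hs]; push_cast; ring
    have e2 : x + 1 / t = (2 * ((t : ℝ) + 1 - 1) * (t + 1) + (t + 1 - s)) /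
        (((t : ℝ) + 1 - 1) * (t + 1) ^ 2) := by
      rw [hxd, show (t : ℝ) + 1 - 1 = t by ring]; field_simp; ring
    have hpos : 0 < ((t : ℝ) + 1 - 1) * (t + 1) ^ 2 := by
      have : (t : ℝ) + 1 - 1 = t := by ring
      rw [this]; positivity
    rw [e2, e1, div_pow, mul_div_assoc', div_le_iff₀ (by positivity)]
    exact hp

lemma count {a b : Finset (Fin r) → ℝ} (h : Feasible a b) (F : ℝ → ℝ) (c : ℝ)
    (H1 : ∀ i, deg a i * F (deg b i) ≤ 1)
    (H2 : ∀ R, 0 < a R → c ≤ ∑ i ∈ R, F (deg b i)) : c ≤ r := by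
  have e1 : ∑ i : Fin r, deg a i * F (deg b i) ≤ r := by
    calc ∑ i : Fin r, deg a i * F (deg b i) ≤ ∑ i : Fin r, (1 : ℝ) :=
          Finset.sum_le_sum fun i _ => H1 i
      _ = r := by simp
  rw [sum_deg_mul a (fun i => F (deg b i))] at e1
  have e2 : ∑ R, a R * c ≤ ∑ R, a R * ∑ i ∈ R, F (deg b i) := by
    refine Finset.sum_le_sum fun R _ => ?_
    rcases (h.a_mem R).1.eq_or_lt with h0 | h0
    · rw [← h0]; simp
    · exact mul_le_mul_of_nonneg_left (H2 R h0) h0.le
  rw [← Finset.sum_mul, h.a_sum, one_mul] at e2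
  linarith

/-- The lower bound for `t (t + 1)` colours. -/
lemma value_pronic (t : ℕ) (ht : 1 ≤ t) {a b : Finset (Fin (t * (t + 1))) → ℝ}
    (h : Feasible a b) : 1 / (t : ℝ) + 1 / (t + 1) ≤ m a b := by
  have htR : (1 : ℝ) ≤ t := by exact_mod_cast ht
  have ht0 : (0 : ℝ) < t := by linarith
  have hT1 : 0 < (t : ℝ) + 1 := by linarith
  by_contra hc
  push Not at hc
  obtain ⟨μ, hμ⟩ : ∃ μ, μ = m a b := ⟨_, rfl⟩
  have hm : ∀ i, deg a i + deg b i ≤ μ := fun i => by rw [hμ]; exact le_m a b i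
  rw [← hμ] at hc
  obtain ⟨η, hη⟩ : ∃ η, η = 1 / (t : ℝ) + 1 / (t + 1) - μ := ⟨_, rfl⟩
  have hη0 : 0 < η := by linarith
  have hμ2 : μ = 1 / (t : ℝ) + 1 / (t + 1) - η := by linarith
  have hfin := count h (fun z => max (2 * ((t : ℝ) + 1) - (t + 1) ^ 2 * (μ - z))
    (2 * (t : ℝ) - t ^ 2 * (μ - z))) (t * (t + 1) + t ^ 2 * η) ?_ ?_
  · push_cast at hfin
    have : 0 < (t : ℝ) ^ 2 * η := by positivity
    linarith
  · intro i
    have h1 := hm i
    have ha := deg_nonneg (fun R => (h.a_mem R).1) i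
    have aux : ∀ c : ℝ, 0 ≤ c → deg a i * (2 * c - c ^ 2 * (μ - deg b i)) ≤ 1 := by
      intro c hc
      have h2 : deg a i * (2 * c - c ^ 2 * (μ - deg b i)) ≤
          deg a i * (2 * c - c ^ 2 * deg a i) := by
        refine mul_le_mul_of_nonneg_left ?_ ha
        have : c ^ 2 * deg a i ≤ c ^ 2 * (μ - deg b i) :=
          mul_le_mul_of_nonneg_left (by linarith) (sq_nonneg c)
        linarith
      nlinarith [sq_nonneg (deg a i * c - 1)]
    rcases max_choice (2 * ((t : ℝ) + 1) - (t + 1) ^ 2 * (μ - deg b i))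
      (2 * (t : ℝ) - t ^ 2 * (μ - deg b i)) with hc | hc
    · show deg a i * max _ _ ≤ 1
      rw [hc]; exact aux _ hT1.le
    · show deg a i * max _ _ ≤ 1
      rw [hc]; exact aux _ ht0.le
  · intro R hR
    have hβ := one_le_beta h hR
    have hk1 : (1 : ℝ) ≤ R.card := by
      have : R.Nonempty := by
        rw [Finset.nonempty_iff_ne_empty]
        rintro rfl
        simp at hβ
        linarith
      exact_mod_cast this.card_pos
    rcases Nat.lt_or_ge t R.card with hk | hk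
    · have hk' : (t : ℝ) + 1 ≤ (R.card : ℝ) := by exact_mod_cast hk
      refine le_trans ?_ (Finset.sum_le_sum fun i _ => le_max_right _ _)
      rw [Finset.sum_sub_distrib, Finset.sum_const, nsmul_eq_mul, ← Finset.mul_sum,
        Finset.sum_sub_distrib, Finset.sum_const, nsmul_eq_mul]
      obtain ⟨β, hβd⟩ : ∃ β, β = ∑ i ∈ R, deg b i := ⟨_, rfl⟩
      rw [← hβd] at hβ ⊢
      have e : (R.card : ℝ) * (2 * t) - t ^ 2 * (R.card * μ - β) =
          R.card * (t / (t + 1)) + R.card * (t ^ 2 * η) + t ^ 2 * β := by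
        rw [hμ2]; field_simp; ring
      rw [e]
      have h1 : (t : ℝ) ≤ R.card * (t / (t + 1)) := by
        rw [mul_div_assoc', le_div_iff₀ hT1]
        nlinarith
      have h2 : (t : ℝ) ^ 2 * η ≤ R.card * (t ^ 2 * η) := by
        have : 0 ≤ (t : ℝ) ^ 2 * η := by positivity
        nlinarith
      nlinarith [mul_le_mul_of_nonneg_left hβ (sq_nonneg (t : ℝ))]
    · have hk' : (R.card : ℝ) ≤ t := by exact_mod_cast hk
      refine le_trans ?_ (Finset.sum_le_sum fun i _ => le_max_left _ _)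
      rw [Finset.sum_sub_distrib, Finset.sum_const, nsmul_eq_mul, ← Finset.mul_sum,
        Finset.sum_sub_distrib, Finset.sum_const, nsmul_eq_mul]
      obtain ⟨β, hβd⟩ : ∃ β, β = ∑ i ∈ R, deg b i := ⟨_, rfl⟩
      rw [← hβd] at hβ ⊢
      have e : (R.card : ℝ) * (2 * (t + 1)) - (t + 1) ^ 2 * (R.card * μ - β) =
          - (R.card * ((t + 1) / t)) + R.card * ((t + 1) ^ 2 * η) + (t + 1) ^ 2 * β := by
        rw [hμ2]; field_simp; ring
      rw [e]
      have h1 : R.card * (((t : ℝ) + 1) / t) ≤ t + 1 := by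
        rw [mul_div_assoc', div_le_iff₀ ht0]
        nlinarith
      have h2 : (t : ℝ) ^ 2 * η ≤ R.card * ((t + 1) ^ 2 * η) := by
        have h3 : (t : ℝ) ^ 2 * η ≤ (t + 1) ^ 2 * η :=
          mul_le_mul_of_nonneg_right (by nlinarith) hη0.le
        have h4 : 0 ≤ ((t : ℝ) + 1) ^ 2 * η := by positivity
        nlinarith
      nlinarith [mul_le_mul_of_nonneg_left hβ (sq_nonneg ((t : ℝ) + 1))]

lemma exists_optimal_pronic (t : ℕ) (ht : 1 ≤ t) :
    ∃ a b : Finset (Fin (t * (t + 1))) → ℝ, Optimal a b ∧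
      m a b = 1 / (t : ℝ) + 1 / (t + 1) := by
  have htR : (1 : ℝ) ≤ t := by exact_mod_cast ht
  have ht0 : (0 : ℝ) < t := by linarith
  have hT1 : 0 < (t : ℝ) + 1 := by linarith
  obtain ⟨a, b, hf, hd⟩ := construct (t + 1) t 0 (by omega) ht (by omega) (r := t * (t + 1))
    (by ring) (1 / ((t : ℝ) + 1)) (by positivity) (by push_cast; field_simp; ring)
  have : Nonempty (Fin (t * (t + 1))) := ⟨⟨0, by positivity⟩⟩
  have hm : m a b = 1 / (t : ℝ) + 1 / (t + 1) := by
    unfold m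
    simp_rw [hd]
    rw [ciSup_const]; ring
  exact ⟨a, b, ⟨hf, fun a' b' h' => hm ▸ value_pronic t ht h'⟩, hm⟩

end H680_BP
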